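import Pool.Agent.Work.MP_3738f3_ag.Final

set_option autoImplicit false

/-!
# MP_3738f3_ag: the stability interval of the type (11, 14, 16) on the projective line is bounded

Coherent systems on the complex projective line with all their subsystems: a subsystem consists of a coherent subsheaf
`E'` of `E` and an arbitrary space `V'` of sections of `E'` contained in `V`; stability is tested on every subsystem
other than `(E, V)` itself, for every real `α`.  We show that for `a = 2`, `t = 8`, `n = 11`, `k = 16` and `d = 2 * 11 - 8 = 14`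
the set of all `α` for which `α`-stable systems exist contains `3` and is contained in the open interval `]0, 6[`.
-/

namespace Pool.Agent.Results.MP_3738f3_ag.BoundedInterval

open MvPolynomial

/-- `H^0(P^1, O(d))`: the binary forms of degree `d`, and `0` if `d < 0` -/
noncomputable def Forms (d : ℤ) : Submodule ℂ (MvPolynomial (Fin 2) ℂ) :=
  if 0 ≤ d then homogeneousSubmodule (Fin 2) ℂ d.toNat else ⊥

/-- A coherent system `(E, V)` of rank `n` on the projective line: `E = O(e 0) ⊕ ... ⊕ O(e (n - 1))` (every bundle is of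
this form by Grothendieck's theorem) and a finite dimensional (automatic) space `V` of global sections of `E` -/
structure CohSystem (n : ℕ) where
  /-- the splitting type of the bundle -/
  e : Fin n → ℤ
  /-- the space of sections -/
  V : Submodule ℂ (Fin n → MvPolynomial (Fin 2) ℂ)
  /-- the elements of `V` are global sections -/
  sec : ∀ s ∈ V, ∀ i, s i ∈ Forms (e i)

/-- the degree of the bundle -/
def CohSystem.deg {n : ℕ} (S : CohSystem n) : ℤ := ∑ i, S.e i

/-- A subsystem `(E', V')` of `(E, V)` with `E'` of rank `m`: `E'` is the image of an injective map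
`O(b 0) ⊕ ... ⊕ O(b (m - 1)) → E`, given by a matrix of forms with linearly independent columns (every coherent subsheaf
of rank `m` is of this form), and `V'` is a subspace of `V` which consists of sections of `E'` -/
structure Subsystem {n : ℕ} (S : CohSystem n) (m : ℕ) where
  /-- the splitting type of the subsheaf -/
  b : Fin m → ℤ
  /-- the inclusion of the subsheaf -/
  M : Matrix (Fin n) (Fin m) (MvPolynomial (Fin 2) ℂ)
  /-- the entries of the inclusion are forms of the right degrees -/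
  form : ∀ i j, M i j ∈ Forms (S.e i - b j)
  /-- the inclusion is injective -/
  inj : LinearIndependent (MvPolynomial (Fin 2) ℂ) M.transpose
  /-- the subspace -/
  V' : Submodule ℂ (Fin n → MvPolynomial (Fin 2) ℂ)
  /-- it is contained in the given space of sections -/
  le : V' ≤ S.V
  /-- its elements are sections of the subsheaf -/
  lift : ∀ s ∈ V', ∃ u : Fin m → MvPolynomial (Fin 2) ℂ, (∀ j, u j ∈ Forms (b j)) ∧ s = M.mulVec u

/-- the `α`-slope `d / n + α * k / n` -/
noncomputable def slope (α : ℝ) (n : ℕ) (d : ℤ) (k : ℕ) : ℝ := (d : ℝ) / n + α * (k / n)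

/-- `α`-stability: `μ_α (E', V') < μ_α (E, V)` for all subsystems with `E' ≠ 0` other than `(E, V)`.  (`E' = E` if and only if
the ranks and the degrees agree.) -/
def Stable {n : ℕ} (α : ℝ) (S : CohSystem n) : Prop :=
  ∀ (m : ℕ) (T : Subsystem S m), 0 < m → ¬ (m = n ∧ ∑ j, T.b j = S.deg ∧ T.V' = S.V) →
    slope α m (∑ j, T.b j) (Module.finrank ℂ T.V') < slope α n S.deg (Module.finrank ℂ S.V)

/-- `I (n, d, k)`: the set of all real `α` for which there is an `α`-stable coherent system of type `(n, d, k)` -/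
def Interval (n : ℕ) (d : ℤ) (k : ℕ) : Set ℝ :=
  {α | ∃ S : CohSystem n, S.deg = d ∧ Module.finrank ℂ S.V = k ∧ Stable α S}

theorem mem_Forms {d : ℤ} {f : MvPolynomial (Fin 2) ℂ} :
    f ∈ Forms d ↔ f.IsHomogeneous d.toNat ∧ (d < 0 → f = 0) := by
  unfold Forms
  split_ifs with h
  · rw [mem_homogeneousSubmodule]
    exact ⟨fun h1 => ⟨h1, fun h2 => absurd h2 (not_lt.mpr h)⟩, fun h1 => h1.1⟩
  · rw [Submodule.mem_bot]
    constructor
    · rintro rfl
      exact ⟨isHomogeneous_zero _ _ _, fun _ => rfl⟩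
    · exact fun h1 => h1.2 (not_le.mp h)

theorem Forms_eq (d : ℤ) : Forms d = Work.MP_3738f3_ag.HomZ d := by
  ext f
  rw [mem_Forms, Work.MP_3738f3_ag.mem_HomZ]

theorem mulVec_eq {n m : ℕ} (M : Matrix (Fin n) (Fin m) (MvPolynomial (Fin 2) ℂ))
    (u : Fin m → MvPolynomial (Fin 2) ℂ) : M.mulVec u = Work.MP_3738f3_ag.mulM M u := by
  funext i
  exact (Work.MP_3738f3_ag.mulM_apply (fun i j => M i j) u i).symm

theorem mem_map {n m : ℕ} {b : Fin m → ℤ} {M : Matrix (Fin n) (Fin m) (MvPolynomial (Fin 2) ℂ)}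
    {s : Fin n → MvPolynomial (Fin 2) ℂ} :
    s ∈ (Work.MP_3738f3_ag.Hsec b).map (Work.MP_3738f3_ag.mulM M) ↔
      ∃ u : Fin m → MvPolynomial (Fin 2) ℂ, (∀ j, u j ∈ Forms (b j)) ∧ s = M.mulVec u := by
  rw [Submodule.mem_map]
  constructor
  · rintro ⟨u, hu, rfl⟩
    exact ⟨u, fun j => by rw [mem_Forms]; exact Work.MP_3738f3_ag.mem_Hsec.mp hu j, (mulVec_eq M u).symm⟩
  · rintro ⟨u, hu, rfl⟩
    exact ⟨u, Work.MP_3738f3_ag.mem_Hsec.mpr fun j => mem_Forms.mp (hu j), (mulVec_eq M u).symm⟩

/-- the system for `α = 3` -/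
noncomputable def S0 : CohSystem 11 where
  e := Work.MP_3738f3_ag.e0
  V := Work.MP_3738f3_ag.V0
  sec := fun s hs i => mem_Forms.mpr (Work.MP_3738f3_ag.V0_hom s hs i)

theorem deg_S0 : S0.deg = 14 := by
  change ∑ i, Work.MP_3738f3_ag.e0 i = 14
  decide

theorem stable_S0 : Stable 3 S0 := by
  intro m T hm hne
  have hV : Module.finrank ℂ S0.V = 16 := Work.MP_3738f3_ag.finrank_V0
  have hfin : Module.Finite ℂ S0.V := Module.finite_of_finrank_pos (by rw [hV]; norm_num)
  have hm0 : (0 : ℝ) < (m : ℝ) := by exact_mod_cast hm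
  rw [deg_S0] at hne ⊢
  rw [hV]
  unfold slope
  by_cases hE : m = 11 ∧ ∑ j, T.b j = 14
  · obtain ⟨h1, h2⟩ := hE
    have h3 : T.V' < S0.V := lt_of_le_of_ne T.le fun h => hne ⟨h1, h2, h⟩
    have h4 : Module.finrank ℂ T.V' < 16 := by
      rw [← hV]
      exact Submodule.finrank_lt_finrank_of_lt h3
    have h5 : ((Module.finrank ℂ T.V' : ℕ) : ℝ) < 16 := by exact_mod_cast h4
    rw [h2]
    have h6 : (m : ℝ) = 11 := by exact_mod_cast h1
    rw [h6]
    push_cast
    linarith
  · have h1 := Work.MP_3738f3_ag.stable0 m T.b T.M hm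
      (fun i j => by rw [← Forms_eq]; exact T.form i j) T.inj hE
    have hfin2 : Module.Finite ℂ ↥(Work.MP_3738f3_ag.V0 ⊓
        (Work.MP_3738f3_ag.Hsec T.b).map (Work.MP_3738f3_ag.mulM T.M)) :=
      Submodule.finiteDimensional_of_le (S₂ := S0.V) inf_le_left
    have h2 : Module.finrank ℂ T.V' ≤ Module.finrank ℂ ↥(Work.MP_3738f3_ag.V0 ⊓
        (Work.MP_3738f3_ag.Hsec T.b).map (Work.MP_3738f3_ag.mulM T.M)) := by
      apply Submodule.finrank_mono
      exact le_inf T.le fun s hs => mem_map.mpr (T.lift s hs)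
    have h3 : ((11 * (∑ j, T.b j) + 33 * (Module.finrank ℂ T.V' : ℤ) : ℤ) : ℝ) <
        ((62 * m : ℤ) : ℝ) := by
      have h4 : (Module.finrank ℂ T.V' : ℤ) ≤ (Module.finrank ℂ ↥(Work.MP_3738f3_ag.V0 ⊓
        (Work.MP_3738f3_ag.Hsec T.b).map (Work.MP_3738f3_ag.mulM T.M)) : ℤ) := by exact_mod_cast h2
      have h5 : (11 * (∑ j, T.b j) + 33 * (Module.finrank ℂ T.V' : ℤ) : ℤ) < 62 * m := by linarith
      exact_mod_cast h5
    push_cast at h3 ⊢
    rw [mul_div_assoc' 3, ← add_div, mul_div_assoc' 3, ← add_div, div_lt_div_iff₀ hm0 (by norm_num)]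
    linarith

/-- the subsystem `(E, 0)` -/
noncomputable def zeroSub {n : ℕ} (S : CohSystem n) : Subsystem S n where
  b := S.e
  M := 1
  form := by
    intro i j
    rw [mem_Forms]
    by_cases h : i = j
    · subst h
      rw [Matrix.one_apply_eq, sub_self]
      exact ⟨isHomogeneous_one _ _, fun h => absurd h (lt_irrefl _)⟩
    · rw [Matrix.one_apply_ne h]
      exact ⟨isHomogeneous_zero _ _ _, fun _ => rfl⟩
  inj := by
    rw [Matrix.transpose_one]
    exact Matrix.linearIndependent_rows_of_isUnit isUnit_one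
  V' := ⊥
  le := bot_le
  lift := by
    intro s hs
    rw [Submodule.mem_bot] at hs
    exact ⟨0, fun j => Submodule.zero_mem _, by rw [hs, Matrix.mulVec_zero]⟩

theorem pos_of_stable {α : ℝ} {S : CohSystem 11} (hV : Module.finrank ℂ S.V = 16) (h : Stable α S) :
    0 < α := by
  have h1 := h 11 (zeroSub S) (by norm_num) (by
    rintro ⟨-, -, h2⟩
    have h3 : (⊥ : Submodule ℂ (Fin 11 → MvPolynomial (Fin 2) ℂ)) = S.V := h2
    rw [← h3, finrank_bot] at hV
    omega)
  have h2 : Module.finrank ℂ (zeroSub S).V' = 0 := finrank_bot ℂ _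
  have h3 : ∑ j, (zeroSub S).b j = S.deg := rfl
  rw [h2, h3, hV] at h1
  unfold slope at h1
  push_cast at h1
  linarith

theorem lt_six_of_stable {α : ℝ} {S : CohSystem 11} (hd : S.deg = 14)
    (hV : Module.finrank ℂ S.V = 16) (h : Stable α S) : α < 6 := by
  by_contra hcon
  push Not at hcon
  apply Work.MP_3738f3_ag.upper α hcon S.e S.V hd hV
    (fun s hs i => by rw [← Forms_eq]; exact S.sec s hs i)
  intro m b M hm hMh hM hne
  have h1 := h m { b := b, M := M, form := fun i j => by rw [Forms_eq]; exact hMh i j, inj := hM, V' := S.V ⊓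
    (Work.MP_3738f3_ag.Hsec b).map (Work.MP_3738f3_ag.mulM M), le := inf_le_left, lift := fun s hs => mem_map.mp hs.2 }
    hm (fun h2 => hne ⟨h2.1, by rw [← hd]; exact h2.2.1⟩)
  rw [hd, hV] at h1
  unfold slope at h1
  push_cast at h1 ⊢
  rw [mul_div_assoc', ← add_div, mul_div_assoc', ← add_div] at h1
  exact h1

/-- **The set `I (11, 14, 16)` (here `a = 2`, `t = 8`, `d = 2 * 11 - 8 = 14`) contains `3` and is contained in `]0, 6[`.** -/
theorem result : (2 : ℤ) * (11 : ℕ) - 8 = 14 ∧ (3 : ℝ) ∈ Interval 11 14 16 ∧ Interval 11 14 16 ⊆ Set.Ioo 0 6 := by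
  refine ⟨by norm_num, ⟨S0, deg_S0, Work.MP_3738f3_ag.finrank_V0, stable_S0⟩, ?_⟩
  rintro α ⟨S, hd, hV, hst⟩
  exact ⟨pos_of_stable hV hst, lt_six_of_stable hd hV hst⟩

end Pool.Agent.Results.MP_3738f3_ag.BoundedInterval
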